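import Pool.Agent.X225.Ra.Main

/-!
MP_35fdad_lc: every stable matching mechanism has RAT-degree at most 3 (for at least two men and
two women), so none has linear RAT-degree.
-/

namespace Pool.Agent.Results.MP_35fdad_lc.AtMostThree

open Pool.Agent.X225.Ra

/-- Every stable matching mechanism for at least two men and at least two women has RAT-degree at
most `3`; consequently there is no family of stable matching mechanisms with linear RAT-degree. -/
theorem result :
    (∀ (M W : Type) [Fintype M] [Fintype W], 2 ≤ Fintype.card M → 2 ≤ Fintype.card W →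
      ∀ F : Mech M W, IsStable F → ratDegree F ≤ 3) ∧
    ¬ ∃ F : ∀ (M W : Type) [Fintype M] [Fintype W], Mech M W,
      (∀ (M W : Type) [Fintype M] [Fintype W], IsStable (F M W)) ∧
      ∃ c : ℝ, 0 < c ∧ ∃ n₀ : ℕ, ∀ (M W : Type) [Fintype M] [Fintype W],
        n₀ ≤ Fintype.card M + Fintype.card W →
          c * ((Fintype.card M + Fintype.card W : ℕ) : ℝ) ≤ (ratDegree (F M W) : ℝ) := by
  have h1 : ∀ (M W : Type) [Fintype M] [Fintype W], 2 ≤ Fintype.card M → 2 ≤ Fintype.card W →
      ∀ F : Mech M W, IsStable F → ratDegree F ≤ 3 :=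
    fun M W _ _ hM hW F hF => ratDegree_le hM hW F hF
  refine ⟨h1, ?_⟩
  rintro ⟨F, hF, c, hc, n₀, h⟩
  obtain ⟨k, hk⟩ := exists_nat_gt (3 / c)
  have h2 := h (Fin (max (max n₀ k) 2)) (Fin 2) (by simp only [Fintype.card_fin]; omega)
  have h3 : ratDegree (F (Fin (max (max n₀ k) 2)) (Fin 2)) ≤ 3 :=
    h1 _ _ (by simp only [Fintype.card_fin]; omega) (by simp) _ (hF _ _)
  have h4 : (ratDegree (F (Fin (max (max n₀ k) 2)) (Fin 2)) : ℝ) ≤ 3 := by exact_mod_cast h3
  have h5 : (k : ℝ) ≤ ((Fintype.card (Fin (max (max n₀ k) 2)) + Fintype.card (Fin 2) : ℕ) : ℝ) := by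
    have : k ≤ Fintype.card (Fin (max (max n₀ k) 2)) + Fintype.card (Fin 2) := by
      simp only [Fintype.card_fin]; omega
    exact_mod_cast this
  have h6 : 3 < c * k := by
    rw [div_lt_iff₀ hc] at hk
    linarith
  have h7 := mul_le_mul_of_nonneg_left h5 hc.le
  linarith

end Pool.Agent.Results.MP_35fdad_lc.AtMostThree
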